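import Mathlib
import Pool.Agent.Y402.VG.Count
import Pool.Agent.Y402.VG.Upper

/-!
# `log₂ N(n) = Θ(n log n)` for the number `N(n)` of visibility graphs of simple polygons

All definitions used in the statement are in `Pool.Agent.H124R2.Vis.Defs` (namespace `Vis124`).
-/

namespace Pool.Agent.Results.MP_af711c_co.VisibilityGrowth

open Vis124 Filter Asymptotics

/-- Lower bound with explicit constants. -/
theorem lower {n : ℕ} (hn : 144 ≤ n) :
    (1 / 24 : ℝ) * (n * Real.logb 2 n) ≤ Real.logb 2 (NGP n) := by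
  set L := (n - 1) / 2 with hLdef
  set m := (L - 8) / 3 with hmdef
  have h1 : n = 2 * L + 2 ∨ n = 2 * L + 1 := by omega
  have h2 : 3 * m + 8 ≤ L := by omega
  have h3 : 1 ≤ m := by omega
  have h4 : n ≤ 12 * m := by omega
  have h5 : (m + 1) ^ m ≤ NGP n := Pool.Agent.Y402.VG.le_NGP h1 h2 h3
  have h6 : n ≤ (m + 1) * (m + 1) := by nlinarith
  have hn0 : (0 : ℝ) < n := by exact_mod_cast (by omega : 0 < n)
  have hm0 : (0 : ℝ) < (m : ℝ) + 1 := by positivity
  have hlog : Real.logb 2 n ≤ 2 * Real.logb 2 ((m : ℝ) + 1) := by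
    have : Real.logb 2 n ≤ Real.logb 2 (((m : ℝ) + 1) ^ 2) := by
      apply Real.logb_le_logb_of_le (by norm_num) hn0
      have : (n : ℝ) ≤ ((m : ℝ) + 1) * ((m : ℝ) + 1) := by exact_mod_cast h6
      nlinarith
    rw [Real.logb_pow] at this
    simpa using this
  have hlogn : 0 ≤ Real.logb 2 n := by
    apply Real.logb_nonneg (by norm_num)
    exact_mod_cast (by omega : 1 ≤ n)
  have hm1 : 0 ≤ Real.logb 2 ((m : ℝ) + 1) := by linarith
  have h7 : (m : ℝ) * Real.logb 2 ((m : ℝ) + 1) ≤ Real.logb 2 (NGP n) := by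
    rw [← Real.logb_pow]
    apply Real.logb_le_logb_of_le (by norm_num) (by positivity)
    exact_mod_cast h5
  have h8 : (n : ℝ) ≤ 12 * m := by exact_mod_cast h4
  have h9 : (n : ℝ) * Real.logb 2 n ≤ (12 * m) * (2 * Real.logb 2 ((m : ℝ) + 1)) :=
    mul_le_mul h8 hlog hlogn (by positivity)
  nlinarith

theorem NGP_pos {n : ℕ} (hn : 144 ≤ n) : 0 < NGP n := by
  set L := (n - 1) / 2 with hLdef
  set m := (L - 8) / 3 with hmdef
  have h1 : n = 2 * L + 2 ∨ n = 2 * L + 1 := by omega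
  have h2 : 3 * m + 8 ≤ L := by omega
  have h3 : 1 ≤ m := by omega
  have h5 : (m + 1) ^ m ≤ NGP n := Pool.Agent.Y402.VG.le_NGP h1 h2 h3
  have : 0 < (m + 1) ^ m := by positivity
  omega

/-- Upper bound with explicit constants. -/
theorem upper {n : ℕ} (hn : 144 ≤ n) :
    Real.logb 2 (N n) ≤ 8 * (n * Real.logb 2 n) := by
  have h0 := Pool.Agent.Y402.VG.N_le n
  have hpos : 0 < N n := lt_of_lt_of_le (NGP_pos hn) (Pool.Agent.Y402.VG.NGP_le n)
  have hn0 : (0 : ℝ) < n := by exact_mod_cast (by omega : 0 < n)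
  have h1 : (2 * (16 * n ^ 3 + 1) ^ (2 * n) : ℕ) ≤ n ^ (8 * n) := by
    have ha : 16 * n ^ 3 + 1 ≤ 17 * n ^ 3 := by
      have : 1 ≤ n ^ 3 := Nat.one_le_pow _ _ (by omega)
      omega
    have hb : 34 * n ^ 3 ≤ n ^ 4 := by
      have : n ^ 4 = n * n ^ 3 := by ring
      rw [this]
      exact Nat.mul_le_mul_right _ (by omega)
    calc 2 * (16 * n ^ 3 + 1) ^ (2 * n) ≤ 2 ^ (2 * n) * (16 * n ^ 3 + 1) ^ (2 * n) := by
          apply Nat.mul_le_mul_right
          calc 2 = 2 ^ 1 := by norm_num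
            _ ≤ 2 ^ (2 * n) := Nat.pow_le_pow_right (by norm_num) (by omega)
      _ = (2 * (16 * n ^ 3 + 1)) ^ (2 * n) := by rw [mul_pow]
      _ ≤ (n ^ 4) ^ (2 * n) := Nat.pow_le_pow_left (by omega) _
      _ = n ^ (8 * n) := by rw [← pow_mul]; congr 1; ring
  have h2 : (N n : ℝ) ≤ (n : ℝ) ^ (8 * n) := by exact_mod_cast h0.trans h1
  calc Real.logb 2 (N n) ≤ Real.logb 2 ((n : ℝ) ^ (8 * n)) :=
        Real.logb_le_logb_of_le (by norm_num) (by exact_mod_cast hpos) h2
    _ = ((8 * n : ℕ) : ℝ) * Real.logb 2 n := Real.logb_pow _ _ _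
    _ = 8 * (n * Real.logb 2 n) := by push_cast; ring

/-- **The growth rate of the number of visibility graphs of simple polygons.**
`log₂ N(n) = Θ(n log n)`, and the same holds when only polygons with no three collinear vertices
are counted. -/
theorem result :
    (∀ n : ℕ, 144 ≤ n →
      (1 / 24 : ℝ) * (n * Real.logb 2 n) ≤ Real.logb 2 (NGP n) ∧
      Real.logb 2 (NGP n) ≤ Real.logb 2 (N n) ∧
      Real.logb 2 (N n) ≤ 8 * (n * Real.logb 2 n)) ∧
    ((fun n : ℕ => Real.logb 2 (N n)) =Θ[atTop] fun n : ℕ => (n : ℝ) * Real.logb 2 n) ∧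
    ((fun n : ℕ => Real.logb 2 (NGP n)) =Θ[atTop] fun n : ℕ => (n : ℝ) * Real.logb 2 n) := by
  have key : ∀ n : ℕ, 144 ≤ n →
      (1 / 24 : ℝ) * (n * Real.logb 2 n) ≤ Real.logb 2 (NGP n) ∧
      Real.logb 2 (NGP n) ≤ Real.logb 2 (N n) ∧
      Real.logb 2 (N n) ≤ 8 * (n * Real.logb 2 n) := by
    intro n hn
    refine ⟨lower hn, ?_, upper hn⟩
    apply Real.logb_le_logb_of_le (by norm_num)
    · exact_mod_cast NGP_pos hn
    · exact_mod_cast Pool.Agent.Y402.VG.NGP_le n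
  have hnn : ∀ n : ℕ, 144 ≤ n → 0 ≤ (n : ℝ) * Real.logb 2 n := by
    intro n hn
    have : 0 ≤ Real.logb 2 (n : ℝ) := by
      apply Real.logb_nonneg (by norm_num)
      exact_mod_cast (by omega : 1 ≤ n)
    positivity
  refine ⟨key, ⟨?_, ?_⟩, ⟨?_, ?_⟩⟩
  · refine IsBigO.of_bound 8 ?_
    filter_upwards [eventually_ge_atTop 144] with n hn
    obtain ⟨h1, h2, h3⟩ := key n hn
    have h0 := hnn n hn
    rw [Real.norm_of_nonneg h0, Real.norm_of_nonneg (by linarith)]
    exact h3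
  · refine IsBigO.of_bound 24 ?_
    filter_upwards [eventually_ge_atTop 144] with n hn
    obtain ⟨h1, h2, h3⟩ := key n hn
    have h0 := hnn n hn
    rw [Real.norm_of_nonneg h0, Real.norm_of_nonneg (by linarith)]
    linarith
  · refine IsBigO.of_bound 8 ?_
    filter_upwards [eventually_ge_atTop 144] with n hn
    obtain ⟨h1, h2, h3⟩ := key n hn
    have h0 := hnn n hn
    rw [Real.norm_of_nonneg h0, Real.norm_of_nonneg (by linarith)]
    linarith
  · refine IsBigO.of_bound 24 ?_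
    filter_upwards [eventually_ge_atTop 144] with n hn
    obtain ⟨h1, h2, h3⟩ := key n hn
    have h0 := hnn n hn
    rw [Real.norm_of_nonneg h0, Real.norm_of_nonneg (by linarith)]
    linarith

end Pool.Agent.Results.MP_af711c_co.VisibilityGrowth
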